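import Pool.Agent.Helper2.MR.St

/-! # Montgomery averaging inequality -/

set_option autoImplicit false

namespace Pool.Agent.Helper2.MR

open Finset MeasureTheory

namespace Avgx

open ArithmeticFunction

/-- sums over divisors -/
theorem sum_div {M : Type*} [AddCommMonoid M] (F : ℕ → ℕ → M) (N : ℕ) :
    ∑ n ∈ Icc 1 N, ∑ d ∈ n.divisors, F d n = ∑ d ∈ Icc 1 N, ∑ m ∈ Icc 1 (N / d), F d (d * m) := by
  rw [Finset.sum_comm' (t' := Icc 1 N) (s' := fun d => (Icc 1 N).filter (fun n => d ∣ n))]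
  · refine Finset.sum_congr rfl fun d hd => ?_
    rw [Finset.mem_Icc] at hd
    have hd0 : 0 < d := hd.1
    refine Finset.sum_nbij' (fun n => n / d) (fun m => d * m) ?_ ?_ ?_ ?_ ?_
    · intro n hn
      rw [Finset.mem_filter, Finset.mem_Icc] at hn
      obtain ⟨⟨h1, h2⟩, k, rfl⟩ := hn
      rw [Nat.mul_div_cancel_left _ hd0, Finset.mem_Icc]
      constructor
      · rcases Nat.eq_zero_or_pos k with rfl | hk
        · simp at h1
        · exact hk
      · rw [Nat.le_div_iff_mul_le hd0, mul_comm]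
        exact h2
    · intro m hm
      rw [Finset.mem_Icc] at hm
      rw [Finset.mem_filter, Finset.mem_Icc]
      refine ⟨⟨Nat.mul_pos hd0 hm.1, ?_⟩, dvd_mul_right _ _⟩
      have := hm.2
      rw [Nat.le_div_iff_mul_le hd0, mul_comm] at this
      exact this
    · intro n hn
      rw [Finset.mem_filter] at hn
      exact Nat.mul_div_cancel' hn.2
    · intro m _
      exact Nat.mul_div_cancel_left _ hd0
    · intro n hn
      rw [Finset.mem_filter] at hn
      rw [Nat.mul_div_cancel' hn.2]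
  · intro n d
    rw [Finset.mem_Icc, Nat.mem_divisors, Finset.mem_filter, Finset.mem_Icc, Finset.mem_Icc]
    constructor
    · rintro ⟨⟨h1, h2⟩, h3, h4⟩
      exact ⟨⟨⟨h1, h2⟩, h3⟩, Nat.pos_of_dvd_of_pos h3 h1, (Nat.le_of_dvd h1 h3).trans h2⟩
    · rintro ⟨⟨⟨h1, h2⟩, h3⟩, -, -⟩
      exact ⟨⟨h1, h2⟩, h3, by omega⟩

theorem sum_log (N : ℕ) : ∑ n ∈ Icc 1 N, Real.log n = Real.log (N.factorial) := by
  induction N with
  | zero => simp
  | succ N ih =>
    rw [Finset.sum_Icc_succ_top (by omega), ih, Nat.factorial_succ, Nat.cast_mul, Real.log_mul]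
    · ring
    · positivity
    · positivity

/-- Mertens -/
theorem mertens : ∃ C : ℝ, 0 ≤ C ∧ ∀ N : ℕ, 1 ≤ N →
    ∑ p ∈ (Icc 1 N).filter Nat.Prime, Real.log p / p ≤ Real.log N + C := by
  refine ⟨Real.log 4 + 4, by positivity, ?_⟩
  intro N hN
  have hN0 : (0 : ℝ) < N := by exact_mod_cast hN
  have h1 : ∑ p ∈ (Icc 1 N).filter Nat.Prime, Real.log p / p ≤ ∑ d ∈ Icc 1 N, vonMangoldt d / d := by
    rw [Finset.sum_filter]
    apply Finset.sum_le_sum
    intro d _
    split_ifs with h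
    · rw [vonMangoldt_apply_prime h]
    · exact div_nonneg vonMangoldt_nonneg (Nat.cast_nonneg _)
  refine h1.trans ?_
  have h2 : ∑ d ∈ Icc 1 N, vonMangoldt d * ((N / d : ℕ) : ℝ) = Real.log (N.factorial) := by
    rw [← sum_log]
    have h3 := sum_div (fun d _ => (vonMangoldt d : ℝ)) N
    simp only [Finset.sum_const, Nat.card_Icc, nsmul_eq_mul, Nat.add_sub_cancel,
      vonMangoldt_sum] at h3
    rw [h3]
    exact Finset.sum_congr rfl fun d _ => mul_comm _ _
  have h4 : Real.log (N.factorial) ≤ N * Real.log N := by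
    rw [← Real.log_pow]
    apply Real.log_le_log (by exact_mod_cast N.factorial_pos)
    exact_mod_cast Nat.factorial_le_pow N
  have h5 : ∑ d ∈ Icc 1 N, vonMangoldt d ≤ (Real.log 4 + 4) * N := by
    have h6 := Chebyshev.psi_le_const_mul_self (x := (N : ℝ)) (by positivity)
    rw [Chebyshev.psi_eq_sum_Icc, Nat.floor_natCast] at h6
    refine le_trans (Finset.sum_le_sum_of_subset_of_nonneg ?_ ?_) h6
    · intro d hd
      rw [Finset.mem_Icc] at hd ⊢
      exact ⟨Nat.zero_le _, hd.2⟩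
    · intro d _ _
      exact vonMangoldt_nonneg
  have h7 : ∀ d ∈ Icc 1 N, (N : ℝ) * (vonMangoldt d / d) ≤
      vonMangoldt d * ((N / d : ℕ) : ℝ) + vonMangoldt d := by
    intro d hd
    have hd1 : (0 : ℝ) < d := by
      have := (Finset.mem_Icc.1 hd).1
      exact_mod_cast this
    have h8 : (N : ℝ) / d ≤ ((N / d : ℕ) : ℝ) + 1 := by
      rw [← Nat.floor_div_eq_div (K := ℝ)]
      exact (Nat.lt_floor_add_one _).le
    have h9 : 0 ≤ vonMangoldt d := vonMangoldt_nonneg
    calc (N : ℝ) * (vonMangoldt d / d) = vonMangoldt d * (N / d) := by ring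
      _ ≤ vonMangoldt d * (((N / d : ℕ) : ℝ) + 1) := mul_le_mul_of_nonneg_left h8 h9
      _ = _ := by ring
  have h10 : (N : ℝ) * ∑ d ∈ Icc 1 N, vonMangoldt d / d ≤ N * (Real.log N + (Real.log 4 + 4)) := by
    rw [Finset.mul_sum]
    calc ∑ d ∈ Icc 1 N, (N : ℝ) * (vonMangoldt d / d) ≤
          ∑ d ∈ Icc 1 N, (vonMangoldt d * ((N / d : ℕ) : ℝ) + vonMangoldt d) :=
            Finset.sum_le_sum h7
      _ = Real.log (N.factorial) + ∑ d ∈ Icc 1 N, vonMangoldt d := by
          rw [Finset.sum_add_distrib, h2]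
      _ ≤ N * (Real.log N + (Real.log 4 + 4)) := by linarith
  exact le_of_mul_le_mul_left h10 hN0

/-- proper prime powers -/
theorem powers : ∃ C : ℝ, 0 ≤ C ∧ ∀ N : ℕ,
    ∑ d ∈ (Icc 1 N).filter (fun d => ¬ d.Prime), vonMangoldt d / d ≤ C := by
  have hs := ArithmeticFunction.vonMangoldt.summable_residueClass_non_primes_div (q := 1) (0 : ZMod 1)
  have hr : ∀ n : ℕ, vonMangoldt.residueClass (0 : ZMod 1) n = vonMangoldt n := by
    intro n
    unfold vonMangoldt.residueClass
    apply Set.indicator_of_mem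
    exact Subsingleton.elim _ _
  refine ⟨∑' n : ℕ, (if n.Prime then 0 else vonMangoldt.residueClass (0 : ZMod 1) n) / n,
    tsum_nonneg fun n => ?_, fun N => ?_⟩
  · rw [hr]
    split_ifs
    · simp
    · exact div_nonneg vonMangoldt_nonneg (Nat.cast_nonneg _)
  · refine le_trans (le_of_eq ?_) (hs.sum_le_tsum ((Icc 1 N).filter (fun d => ¬ d.Prime)) ?_)
    · refine Finset.sum_congr rfl fun d hd => ?_
      rw [Finset.mem_filter] at hd
      rw [if_neg hd.2, hr]
    · intro n _
      rw [hr]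
      split_ifs
      · simp
      · exact div_nonneg vonMangoldt_nonneg (Nat.cast_nonneg _)

variable {q : ℕ} (χ : DirichletCharacter ℂ q) (t : ℝ)

/-- the multiplicative function -/
noncomputable def ff (n : ℕ) : ℂ := gl χ n * ch t n

theorem ch_norm (n : ℕ) : ‖ch t n‖ = 1 := by
  unfold ch
  rw [Complex.norm_exp_ofReal_mul_I]

theorem ch_mul {m n : ℕ} (hm : m ≠ 0) (hn : n ≠ 0) : ch t (m * n) = ch t m * ch t n := by
  unfold ch
  rw [← Complex.exp_add, Nat.cast_mul, Real.log_mul (by exact_mod_cast hm) (by exact_mod_cast hn)]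
  congr 1
  push_cast
  ring

theorem ff_mul {m n : ℕ} (hm : m ≠ 0) (hn : n ≠ 0) :
    ff χ t (m * n) = ff χ t m * ff χ t n := by
  unfold ff gl
  rw [ch_mul t hm hn, ArithmeticFunction.cardFactors_mul hm hn, pow_add]
  push_cast
  rw [map_mul]
  ring

theorem ff_norm (n : ℕ) : ‖ff χ t n‖ ≤ 1 := by
  unfold ff gl
  rw [norm_mul, norm_mul, ch_norm, norm_pow, norm_neg, norm_one, one_pow, one_mul, mul_one]
  exact χ.norm_le_one _

theorem MM_eq (x : ℝ) : MM χ t x = ∑ n ∈ Icc 1 ⌊x⌋₊, ff χ t n := rfl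

theorem MM_norm_le {x : ℝ} (hx : 0 ≤ x) : ‖MM χ t x‖ ≤ x := by
  rw [MM_eq]
  calc ‖∑ n ∈ Icc 1 ⌊x⌋₊, ff χ t n‖ ≤ ∑ n ∈ Icc 1 ⌊x⌋₊, (1 : ℝ) :=
        (norm_sum_le _ _).trans (Finset.sum_le_sum fun n _ => ff_norm χ t n)
    _ = (⌊x⌋₊ : ℝ) := by simp
    _ ≤ x := Nat.floor_le hx

/-- the logarithmic identity -/
theorem log_id (x : ℝ) (hx : 1 ≤ x) :
    ‖MM χ t x‖ * Real.log x ≤ x + ∑ d ∈ Icc 1 ⌊x⌋₊, vonMangoldt d * ‖MM χ t (x / d)‖ := by
  have hx0 : 0 < x := by linarith
  set N := ⌊x⌋₊ with hN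
  have hNx : (N : ℝ) ≤ x := Nat.floor_le hx0.le
  have e1 : MM χ t x * (Real.log x : ℂ) = ∑ n ∈ Icc 1 N, ff χ t n * ((Real.log x - Real.log n : ℝ) : ℂ) +
      ∑ n ∈ Icc 1 N, ff χ t n * (Real.log n : ℂ) := by
    rw [MM_eq, Finset.sum_mul, ← Finset.sum_add_distrib]
    refine Finset.sum_congr rfl fun n _ => ?_
    push_cast
    ring
  have e2 : ∑ n ∈ Icc 1 N, ff χ t n * (Real.log n : ℂ) =
      ∑ d ∈ Icc 1 N, (vonMangoldt d : ℂ) * ff χ t d * MM χ t (x / d) := by
    have h1 := sum_div (fun d n => (vonMangoldt d : ℂ) * ff χ t n) N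
    have h2 : ∑ n ∈ Icc 1 N, ∑ d ∈ n.divisors, (vonMangoldt d : ℂ) * ff χ t n =
        ∑ n ∈ Icc 1 N, ff χ t n * (Real.log n : ℂ) := by
      refine Finset.sum_congr rfl fun n _ => ?_
      rw [← Finset.sum_mul, mul_comm, ← vonMangoldt_sum]
      push_cast
      rfl
    rw [← h2, h1]
    refine Finset.sum_congr rfl fun d hd => ?_
    have hd0 : d ≠ 0 := by
      have := (Finset.mem_Icc.1 hd).1
      omega
    rw [MM_eq, Nat.floor_div_natCast, Finset.mul_sum]
    refine Finset.sum_congr rfl fun m hm => ?_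
    have hm0 : m ≠ 0 := by
      have := (Finset.mem_Icc.1 hm).1
      omega
    rw [ff_mul χ t hd0 hm0]
    ring
  have h3 : ‖∑ n ∈ Icc 1 N, ff χ t n * ((Real.log x - Real.log n : ℝ) : ℂ)‖ ≤ x := by
    calc ‖∑ n ∈ Icc 1 N, ff χ t n * ((Real.log x - Real.log n : ℝ) : ℂ)‖
        ≤ ∑ n ∈ Icc 1 N, (Real.log x - Real.log n) := by
          refine (norm_sum_le _ _).trans (Finset.sum_le_sum fun n hn => ?_)
          rw [Finset.mem_Icc] at hn
          have hn1 : (0 : ℝ) < n := by exact_mod_cast hn.1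
          have hnx : (n : ℝ) ≤ x := le_trans (by exact_mod_cast hn.2) hNx
          have h4 : 0 ≤ Real.log x - Real.log n := sub_nonneg.2 (Real.log_le_log hn1 hnx)
          rw [norm_mul, Complex.norm_real, Real.norm_of_nonneg h4]
          exact mul_le_of_le_one_left h4 (ff_norm χ t n)
      _ = N * Real.log x - Real.log N.factorial := by
          rw [Finset.sum_sub_distrib, sum_log]
          simp
      _ ≤ x := by
          have h5 : x ^ N / N.factorial ≤ Real.exp x := by
            refine le_trans ?_ (Real.sum_le_exp_of_nonneg hx0.le (N + 1))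
            exact Finset.single_le_sum (f := fun i : ℕ => x ^ i / (i.factorial : ℝ))
              (fun i _ => by positivity) (Finset.mem_range.2 (Nat.lt_succ_self N))
          have h6 := Real.log_le_log (by positivity) h5
          rw [Real.log_exp, Real.log_div (by positivity) (by positivity), Real.log_pow] at h6
          exact h6
  have h4 : ‖∑ n ∈ Icc 1 N, ff χ t n * (Real.log n : ℂ)‖ ≤
      ∑ d ∈ Icc 1 N, vonMangoldt d * ‖MM χ t (x / d)‖ := by
    rw [e2]
    refine (norm_sum_le _ _).trans (Finset.sum_le_sum fun d _ => ?_)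
    rw [norm_mul, norm_mul, Complex.norm_real, Real.norm_of_nonneg vonMangoldt_nonneg]
    have h5 : vonMangoldt d * ‖ff χ t d‖ ≤ vonMangoldt d :=
      mul_le_of_le_one_right vonMangoldt_nonneg (ff_norm χ t d)
    exact mul_le_mul_of_nonneg_right h5 (norm_nonneg _)
  have h5 : ‖MM χ t x‖ * Real.log x = ‖MM χ t x * (Real.log x : ℂ)‖ := by
    rw [norm_mul, Complex.norm_real, Real.norm_of_nonneg (Real.log_nonneg hx)]
  rw [h5, e1]
  exact (norm_add_le _ _).trans (add_le_add h3 h4)

/-- the averages -/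
noncomputable def aa (v : ℝ) : ℝ := Real.exp (-v) * ‖MM χ t (Real.exp v)‖

theorem aa_nonneg (v : ℝ) : 0 ≤ aa χ t v := mul_nonneg (Real.exp_pos _).le (norm_nonneg _)

theorem aa_le_one (v : ℝ) : aa χ t v ≤ 1 := by
  unfold aa
  calc Real.exp (-v) * ‖MM χ t (Real.exp v)‖ ≤ Real.exp (-v) * Real.exp v :=
        mul_le_mul_of_nonneg_left (MM_norm_le χ t (Real.exp_pos _).le) (Real.exp_pos _).le
    _ = 1 := by rw [← Real.exp_add]; simp

theorem aa_meas : Measurable (aa χ t) := by
  unfold aa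
  apply Measurable.mul (by fun_prop)
  apply Measurable.norm
  have h1 : Measurable (fun n : ℕ => ∑ k ∈ Icc 1 n, ff χ t k) := measurable_from_nat
  exact h1.comp (Nat.measurable_floor.comp Real.measurable_exp)

theorem aa_step {v w : ℝ} (hvw : v ≤ w) :
    aa χ t v ≤ aa χ t w + 2 * (w - v) + Real.exp (-w) := by
  have hev : 0 < Real.exp v := Real.exp_pos v
  have hew : 0 < Real.exp w := Real.exp_pos w
  have h1 : ‖MM χ t (Real.exp v)‖ ≤ ‖MM χ t (Real.exp w)‖ + (Real.exp w - Real.exp v + 1) := by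
    have hfl : ⌊Real.exp v⌋₊ ≤ ⌊Real.exp w⌋₊ := Nat.floor_mono (Real.exp_le_exp.2 hvw)
    have h2 : MM χ t (Real.exp w) = MM χ t (Real.exp v) +
        ∑ n ∈ Ioc ⌊Real.exp v⌋₊ ⌊Real.exp w⌋₊, ff χ t n := by
      rw [MM_eq, MM_eq]
      have h3 : ∀ N : ℕ, Icc 1 N = Ioc 0 N := fun N => rfl
      rw [h3, h3, Finset.sum_Ioc_consecutive _ (Nat.zero_le _) hfl]
    have h4 : ‖∑ n ∈ Ioc ⌊Real.exp v⌋₊ ⌊Real.exp w⌋₊, ff χ t n‖ ≤
        Real.exp w - Real.exp v + 1 := by
      calc ‖∑ n ∈ Ioc ⌊Real.exp v⌋₊ ⌊Real.exp w⌋₊, ff χ t n‖ ≤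
            ∑ n ∈ Ioc ⌊Real.exp v⌋₊ ⌊Real.exp w⌋₊, (1 : ℝ) :=
              (norm_sum_le _ _).trans (Finset.sum_le_sum fun n _ => ff_norm χ t n)
        _ = (⌊Real.exp w⌋₊ : ℝ) - ⌊Real.exp v⌋₊ := by
            rw [Finset.sum_const, Nat.card_Ioc, nsmul_eq_mul, mul_one, Nat.cast_sub hfl]
        _ ≤ Real.exp w - Real.exp v + 1 := by
            have h5 := Nat.floor_le hew.le
            have h6 := Nat.lt_floor_add_one (Real.exp v)
            linarith
    have h5 : MM χ t (Real.exp v) = MM χ t (Real.exp w) -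
        ∑ n ∈ Ioc ⌊Real.exp v⌋₊ ⌊Real.exp w⌋₊, ff χ t n := by
      rw [h2]; ring
    rw [h5]
    exact (norm_sub_le _ _).trans (add_le_add le_rfl h4)
  have h2 : ‖MM χ t (Real.exp v)‖ ≤ Real.exp v := MM_norm_le χ t hev.le
  have h3 : 0 ≤ Real.exp (-v) - Real.exp (-w) := sub_nonneg.2 (Real.exp_le_exp.2 (by linarith))
  have h4 : Real.exp (-v) * Real.exp v = 1 := by rw [← Real.exp_add]; simp
  have h5 : Real.exp (-w) * Real.exp w = 1 := by rw [← Real.exp_add]; simp
  have h6 : v - w + 1 ≤ Real.exp (-w) * Real.exp v := by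
    rw [← Real.exp_add]
    have := Real.add_one_le_exp (-w + v)
    linarith
  have h7 : aa χ t v - aa χ t w = (Real.exp (-v) - Real.exp (-w)) * ‖MM χ t (Real.exp v)‖ +
      Real.exp (-w) * (‖MM χ t (Real.exp v)‖ - ‖MM χ t (Real.exp w)‖) := by
    unfold aa; ring
  have h8 : (Real.exp (-v) - Real.exp (-w)) * ‖MM χ t (Real.exp v)‖ ≤
      (Real.exp (-v) - Real.exp (-w)) * Real.exp v := mul_le_mul_of_nonneg_left h2 h3
  have h9 : Real.exp (-w) * (‖MM χ t (Real.exp v)‖ - ‖MM χ t (Real.exp w)‖) ≤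
      Real.exp (-w) * (Real.exp w - Real.exp v + 1) := by
    apply mul_le_mul_of_nonneg_left _ (Real.exp_pos _).le
    linarith
  nlinarith

theorem aa_int (a b : ℝ) : IntervalIntegrable (aa χ t) volume a b := by
  have h0 : IntervalIntegrable (fun _ : ℝ => (1 : ℝ)) volume a b := intervalIntegrable_const
  refine h0.mono_fun' (aa_meas χ t).aestronglyMeasurable ?_
  refine Filter.Eventually.of_forall fun v => ?_
  simp only [Real.norm_of_nonneg (aa_nonneg χ t v)]
  exact aa_le_one χ t v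

/-- the pointwise bound by a local average -/
theorem aa_avg {V : ℝ} (hV : 1 ≤ V) (v : ℝ) :
    aa χ t v ≤ V * (∫ w in v..(v + 1 / V), aa χ t w) + 2 / V + Real.exp (-v) := by
  have hV0 : 0 < V := by linarith
  have hh : 0 < 1 / V := by positivity
  have h1 : ∫ w in v..(v + 1 / V), (aa χ t v - (2 / V + Real.exp (-v))) ≤
      ∫ w in v..(v + 1 / V), aa χ t w := by
    apply intervalIntegral.integral_mono_on (by linarith)
    · exact intervalIntegrable_const
    · exact aa_int χ t _ _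
    · intro w hw
      have h2 := aa_step χ t hw.1
      have h3 : 2 * (w - v) ≤ 2 / V := by
        have : w - v ≤ 1 / V := by linarith [hw.2]
        have h4 : 2 / V = 2 * (1 / V) := by ring
        rw [h4]; linarith
      have h4 : Real.exp (-w) ≤ Real.exp (-v) := Real.exp_le_exp.2 (by linarith [hw.1])
      linarith
  rw [intervalIntegral.integral_const, smul_eq_mul] at h1
  have h2 : v + 1 / V - v = 1 / V := by ring
  rw [h2] at h1
  have h3 := mul_le_mul_of_nonneg_left h1 hV0.le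
  have h4 : V * (1 / V * (aa χ t v - (2 / V + Real.exp (-v)))) =
      aa χ t v - (2 / V + Real.exp (-v)) := by
    field_simp
  rw [h4] at h3
  linarith

/-- the kernel estimate -/
theorem ker {C V z1 u : ℝ} (hC : 0 ≤ C) (hV : 1 ≤ V) (hz1 : 0 ≤ z1) (hu : 0 ≤ u)
    (hBT : ∀ z : ℝ, z1 ≤ z → ∑ p ∈ (Ioc ⌊Real.exp z⌋₊ ⌊Real.exp (z + 1 / V)⌋₊).filter Nat.Prime,
      Real.log p / p ≤ C / V) :
    ∑ p ∈ (Icc 1 ⌊Real.exp u⌋₊).filter Nat.Prime, Real.log p / p *
        (∫ w in (u - Real.log p)..(u - Real.log p + 1 / V), aa χ t w) ≤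
      C / V * (∫ w in (0:ℝ)..u, aa χ t w) +
        (∑ p ∈ (Icc 1 ⌊Real.exp (z1 + 1)⌋₊).filter Nat.Prime, Real.log p / p) * (z1 + 1 / V) := by
  have hV0 : 0 < V := by linarith
  have hh : 0 < 1 / V := by positivity
  have hh1 : 1 / V ≤ 1 := by rw [div_le_one hV0]; exact hV
  set P := (Icc 1 ⌊Real.exp u⌋₊).filter Nat.Prime with hP
  set K1 := ∑ p ∈ (Icc 1 ⌊Real.exp (z1 + 1)⌋₊).filter Nat.Prime, Real.log p / p with hK1
  have hc : ∀ p : ℕ, 0 ≤ Real.log p / p := fun p =>
    div_nonneg (Real.log_natCast_nonneg p) (Nat.cast_nonneg p)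
  have hK10 : 0 ≤ K1 := Finset.sum_nonneg fun p _ => hc p
  have hI : ∀ a b : ℝ, Integrable ((Set.Ioc a b).indicator (aa χ t)) := by
    intro a b
    rw [integrable_indicator_iff measurableSet_Ioc]
    exact (aa_int χ t a b).1
  have hJ : ∀ a b : ℝ, Integrable ((Set.Ioc a b).indicator (fun _ => (1 : ℝ))) := by
    intro a b
    rw [integrable_indicator_iff measurableSet_Ioc]
    exact (intervalIntegrable_const (μ := volume) (a := a) (b := b) (c := (1 : ℝ))).1
  have e1 : ∀ p ∈ P, Real.log p / p *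
      (∫ w in (u - Real.log p)..(u - Real.log p + 1 / V), aa χ t w) =
      ∫ w, Real.log p / p *
        (Set.Ioc (u - Real.log p) (u - Real.log p + 1 / V)).indicator (aa χ t) w := by
    intro p _
    rw [integral_const_mul, integral_indicator measurableSet_Ioc,
      intervalIntegral.integral_of_le (by linarith)]
  rw [Finset.sum_congr rfl e1, ← integral_finset_sum _ (fun p _ => (hI _ _).const_mul _)]
  have e2 : C / V * (∫ w in (0:ℝ)..u, aa χ t w) + K1 * (z1 + 1 / V) =
      ∫ w, (C / V * (Set.Ioc 0 u).indicator (aa χ t) w +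
        K1 * (Set.Ioc (u - z1) (u + 1 / V)).indicator (fun _ => (1 : ℝ)) w) := by
    rw [integral_add ((hI _ _).const_mul _) ((hJ _ _).const_mul _), integral_const_mul,
      integral_const_mul, integral_indicator measurableSet_Ioc,
      integral_indicator measurableSet_Ioc, intervalIntegral.integral_of_le hu]
    congr 2
    rw [← intervalIntegral.integral_of_le (by linarith), intervalIntegral.integral_const]
    simp
    ring
  rw [e2]
  apply integral_mono
  · exact integrable_finset_sum _ (fun p _ => (hI _ _).const_mul _)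
  · exact ((hI _ _).const_mul _).add ((hJ _ _).const_mul _)
  intro w
  have hind : ∀ p : ℕ, Real.log p / p *
      (Set.Ioc (u - Real.log p) (u - Real.log p + 1 / V)).indicator (aa χ t) w =
      if (u - w < Real.log p ∧ Real.log p ≤ u - w + 1 / V) then Real.log p / p * aa χ t w
        else 0 := by
    intro p
    by_cases h : u - w < Real.log p ∧ Real.log p ≤ u - w + 1 / V
    · rw [if_pos h, Set.indicator_of_mem]
      exact ⟨by linarith [h.1], by linarith [h.2]⟩
    · rw [if_neg h, Set.indicator_of_notMem, mul_zero]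
      intro h2
      exact h ⟨by linarith [h2.1], by linarith [h2.2]⟩
  have hsum : ∑ p ∈ P, Real.log p / p *
      (Set.Ioc (u - Real.log p) (u - Real.log p + 1 / V)).indicator (aa χ t) w =
      (∑ p ∈ P.filter (fun p : ℕ => u - w < Real.log p ∧ Real.log p ≤ u - w + 1 / V),
        Real.log p / p) * aa χ t w := by
    rw [Finset.sum_congr rfl fun p _ => hind p, ← Finset.sum_filter, Finset.sum_mul]
  simp only
  rw [hsum]
  have ha0 := aa_nonneg χ t w
  have ha1 := aa_le_one χ t w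
  have hlogp : ∀ p ∈ P, (1 : ℝ) ≤ p ∧ 0 ≤ Real.log p ∧ Real.log p ≤ u := by
    intro p hp
    rw [hP, Finset.mem_filter, Finset.mem_Icc] at hp
    have h1 : (1 : ℝ) ≤ p := by exact_mod_cast hp.1.1
    have h2 : (p : ℝ) ≤ Real.exp u := (Nat.le_floor_iff (Real.exp_pos _).le).1 hp.1.2
    exact ⟨h1, Real.log_nonneg h1, (Real.log_le_iff_le_exp (by linarith)).2 h2⟩
  have hi1 : 0 ≤ (Set.Ioc 0 u).indicator (aa χ t) w :=
    Set.indicator_nonneg (fun v _ => aa_nonneg χ t v) w
  have hi2 : 0 ≤ (Set.Ioc (u - z1) (u + 1 / V)).indicator (fun _ => (1 : ℝ)) w :=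
    Set.indicator_nonneg (fun _ _ => zero_le_one) w
  have hCV : 0 ≤ C / V := by positivity
  have hRHS : 0 ≤ C / V * (Set.Ioc 0 u).indicator (aa χ t) w +
      K1 * (Set.Ioc (u - z1) (u + 1 / V)).indicator (fun _ => (1 : ℝ)) w := by positivity
  have hzero : (∀ p ∈ P, ¬ (u - w < Real.log p ∧ Real.log p ≤ u - w + 1 / V)) →
      (∑ p ∈ P.filter (fun p : ℕ => u - w < Real.log p ∧ Real.log p ≤ u - w + 1 / V),
        Real.log p / p) * aa χ t w = 0 := by
    intro h
    rw [Finset.filter_false_of_mem h, Finset.sum_empty, zero_mul]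
  rcases le_or_gt z1 (u - w) with hz | hz
  · rcases le_or_gt w 0 with hw | hw
    · rw [hzero (fun p hp h => by
        have := (hlogp p hp).2.2
        linarith [h.1])]
      exact hRHS
    · have h1 : ∑ p ∈ P.filter (fun p : ℕ => u - w < Real.log p ∧ Real.log p ≤ u - w + 1 / V),
          Real.log p / p ≤ C / V := by
        refine le_trans (Finset.sum_le_sum_of_subset_of_nonneg ?_ fun p _ _ => hc p) (hBT _ hz)
        intro p hp
        rw [Finset.mem_filter] at hp
        have hp1 := (hlogp p hp.1).1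
        have hpr : p.Prime := by
          have := hp.1
          rw [hP, Finset.mem_filter] at this
          exact this.2
        rw [Finset.mem_filter, Finset.mem_Ioc]
        refine ⟨⟨?_, ?_⟩, hpr⟩
        · rw [Nat.floor_lt (Real.exp_pos _).le]
          rw [← Real.lt_log_iff_exp_lt (by linarith)]
          exact hp.2.1
        · apply Nat.le_floor
          rw [← Real.log_le_iff_le_exp (by linarith)]
          exact hp.2.2
      have h2 : (Set.Ioc 0 u).indicator (aa χ t) w = aa χ t w :=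
        Set.indicator_of_mem (show w ∈ Set.Ioc 0 u from ⟨hw, by linarith⟩) _
      rw [h2]
      have h3 := mul_le_mul_of_nonneg_right h1 ha0
      have h4 : 0 ≤ K1 * (Set.Ioc (u - z1) (u + 1 / V)).indicator (fun _ => (1 : ℝ)) w := by
        positivity
      linarith
  · rcases le_or_gt w (u + 1 / V) with hw | hw
    · have h1 : ∑ p ∈ P.filter (fun p : ℕ => u - w < Real.log p ∧ Real.log p ≤ u - w + 1 / V),
          Real.log p / p ≤ K1 := by
        refine Finset.sum_le_sum_of_subset_of_nonneg ?_ fun p _ _ => hc p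
        intro p hp
        rw [Finset.mem_filter] at hp
        have hp1 := (hlogp p hp.1).1
        have hpr := hp.1
        rw [hP, Finset.mem_filter, Finset.mem_Icc] at hpr
        rw [Finset.mem_filter, Finset.mem_Icc]
        refine ⟨⟨hpr.1.1, ?_⟩, hpr.2⟩
        apply Nat.le_floor
        rw [← Real.log_le_iff_le_exp (by linarith)]
        linarith [hp.2.2]
      have h2 : (Set.Ioc (u - z1) (u + 1 / V)).indicator (fun _ => (1 : ℝ)) w = 1 :=
        Set.indicator_of_mem (show w ∈ Set.Ioc (u - z1) (u + 1 / V) from ⟨by linarith, hw⟩) _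
      rw [h2]
      have h3 : (∑ p ∈ P.filter (fun p : ℕ => u - w < Real.log p ∧ Real.log p ≤ u - w + 1 / V),
          Real.log p / p) * aa χ t w ≤ K1 * 1 := mul_le_mul h1 ha1 ha0 hK10
      have h4 : 0 ≤ C / V * (Set.Ioc 0 u).indicator (aa χ t) w := by positivity
      linarith
    · rw [hzero (fun p hp h => by
        have := (hlogp p hp).2.1
        linarith [h.2])]
      exact hRHS

end Avgx

open Avgx ArithmeticFunction in
theorem avg (h1 : StBT) : StAvg := by
  obtain ⟨CB, hCB, hBT⟩ := h1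
  obtain ⟨C1, hC1, hpow⟩ := powers
  obtain ⟨C2, hC2, hmer⟩ := mertens
  refine ⟨CB + 2, by linarith, ?_⟩
  intro q _ χ V hV
  obtain ⟨z0, hz0⟩ := hBT V hV
  have hV0 : 0 < V := by linarith
  set z1 := max z0 0 with hz1
  set K1 := ∑ p ∈ (Icc 1 ⌊Real.exp (z1 + 1)⌋₊).filter Nat.Prime, Real.log p / p with hK1
  refine ⟨1 + C1 + V * (K1 * (z1 + 1 / V)) + 2 / V * C2 + Real.log 4, ?_⟩
  intro t u hu
  have hu0 : 0 ≤ u := by linarith
  set x := Real.exp u with hx
  have hx0 : 0 < x := Real.exp_pos u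
  have hx1 : 1 ≤ x := Real.one_le_exp hu0
  set N := ⌊x⌋₊ with hN
  have hN1 : 1 ≤ N := by rw [hN, Nat.one_le_floor_iff]; exact hx1
  have hNx : (N : ℝ) ≤ x := Nat.floor_le hx0.le
  set P := (Icc 1 N).filter Nat.Prime with hP
  have hP1 : ∀ p ∈ P, (0 : ℝ) < p := by
    intro p hp
    rw [hP, Finset.mem_filter, Finset.mem_Icc] at hp
    have : (1 : ℝ) ≤ p := by exact_mod_cast hp.1.1
    linarith
  have hid := log_id χ t x hx1
  rw [hx, Real.log_exp, ← hx, ← hN] at hid
  -- split into primes and non-primes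
  have hexpp : ∀ p ∈ P, Real.exp (u - Real.log p) = x / p := by
    intro p hp
    rw [Real.exp_sub, Real.exp_log (hP1 p hp)]
  have hprime : ∀ p ∈ P, vonMangoldt p * ‖MM χ t (x / p)‖ =
      x * (Real.log p / p * aa χ t (u - Real.log p)) := by
    intro p hp
    have hpp : p.Prime := (Finset.mem_filter.1 hp).2
    have hp0 := hP1 p hp
    unfold aa
    rw [hexpp p hp, vonMangoldt_apply_prime hpp, Real.exp_neg, hexpp p hp]
    field_simp
  have hsplit : ∑ d ∈ Icc 1 N, vonMangoldt d * ‖MM χ t (x / d)‖ ≤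
      x * ∑ p ∈ P, Real.log p / p * aa χ t (u - Real.log p) + x * C1 := by
    rw [← Finset.sum_filter_add_sum_filter_not (Icc 1 N) Nat.Prime]
    apply add_le_add
    · rw [Finset.mul_sum]
      exact le_of_eq (Finset.sum_congr rfl hprime)
    · refine le_trans ?_ (mul_le_mul_of_nonneg_left (hpow N) hx0.le)
      rw [Finset.mul_sum]
      apply Finset.sum_le_sum
      intro d hd
      have hd0 : (0 : ℝ) ≤ x / d := by positivity
      calc vonMangoldt d * ‖MM χ t (x / d)‖ ≤ vonMangoldt d * (x / d) :=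
            mul_le_mul_of_nonneg_left (MM_norm_le χ t hd0) vonMangoldt_nonneg
        _ = x * (vonMangoldt d / d) := by ring
  have hmain : u * aa χ t u ≤ 1 + C1 + ∑ p ∈ P, Real.log p / p * aa χ t (u - Real.log p) := by
    have h2 : ‖MM χ t x‖ * u ≤ x * (1 + C1 + ∑ p ∈ P, Real.log p / p *
        aa χ t (u - Real.log p)) := by
      calc ‖MM χ t x‖ * u ≤ x + ∑ d ∈ Icc 1 N, vonMangoldt d * ‖MM χ t (x / d)‖ := hid
        _ ≤ x + (x * ∑ p ∈ P, Real.log p / p * aa χ t (u - Real.log p) + x * C1) := by linarith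
        _ = _ := by ring
    have h3 : u * aa χ t u = (‖MM χ t x‖ * u) / x := by
      unfold aa
      rw [Real.exp_neg, ← hx]
      field_simp
    rw [h3, div_le_iff₀ hx0]
    linarith
  have havg : ∑ p ∈ P, Real.log p / p * aa χ t (u - Real.log p) ≤
      V * (∑ p ∈ P, Real.log p / p *
        (∫ w in (u - Real.log p)..(u - Real.log p + 1 / V), aa χ t w)) +
      2 / V * (∑ p ∈ P, Real.log p / p) + ∑ p ∈ P, Real.log p / p *
        Real.exp (-(u - Real.log p)) := by
    rw [Finset.mul_sum, Finset.mul_sum, ← Finset.sum_add_distrib, ← Finset.sum_add_distrib]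
    apply Finset.sum_le_sum
    intro p _
    have h2 := aa_avg χ t hV (u - Real.log p)
    have h3 : 0 ≤ Real.log p / p := div_nonneg (Real.log_natCast_nonneg p) (Nat.cast_nonneg p)
    calc Real.log p / p * aa χ t (u - Real.log p) ≤ Real.log p / p *
          (V * (∫ w in (u - Real.log p)..(u - Real.log p + 1 / V), aa χ t w) + 2 / V +
            Real.exp (-(u - Real.log p))) := mul_le_mul_of_nonneg_left h2 h3
      _ = _ := by ring
  have hker := ker χ t hCB.le hV (le_max_right z0 0) hu0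
    (fun z hz => hz0 z ((le_max_left _ _).trans hz))
  have hmer' : ∑ p ∈ P, Real.log p / p ≤ u + C2 := by
    refine (hmer N hN1).trans ?_
    have : Real.log N ≤ u := by
      rw [Real.log_le_iff_le_exp (by exact_mod_cast hN1)]
      exact hNx
    linarith
  have hth : ∑ p ∈ P, Real.log p / p * Real.exp (-(u - Real.log p)) ≤ Real.log 4 := by
    have h2 : ∑ p ∈ P, Real.log p / p * Real.exp (-(u - Real.log p)) =
        (∑ p ∈ P, Real.log p) / x := by
      rw [Finset.sum_div]
      refine Finset.sum_congr rfl fun p hp => ?_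
      rw [Real.exp_neg, hexpp p hp]
      have hp0 := hP1 p hp
      field_simp
    rw [h2, div_le_iff₀ hx0]
    have h3 := Chebyshev.theta_le_log4_mul_x hx0.le
    unfold Chebyshev.theta at h3
    exact h3
  have hJ0 : 0 ≤ ∫ w in (0:ℝ)..u, aa χ t w :=
    intervalIntegral.integral_nonneg hu0 fun w _ => aa_nonneg χ t w
  have hVker := mul_le_mul_of_nonneg_left hker hV0.le
  have h2V : 0 ≤ 2 / V := by positivity
  have hm2 := mul_le_mul_of_nonneg_left hmer' h2V
  have e1 : V * (CB / V * (∫ w in (0:ℝ)..u, aa χ t w) + K1 * (z1 + 1 / V)) =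
      CB * (∫ w in (0:ℝ)..u, aa χ t w) + V * (K1 * (z1 + 1 / V)) := by
    field_simp
  have e2 : (CB + 2) * u / V = CB * (u / V) + 2 / V * u := by ring
  have e3 : 0 ≤ CB * (u / V) := by positivity
  have hfin : u * aa χ t u ≤ (CB + 2) * (∫ w in (0:ℝ)..u, aa χ t w) + (CB + 2) * u / V +
      (1 + C1 + V * (K1 * (z1 + 1 / V)) + 2 / V * C2 + Real.log 4) := by
    rw [e2]
    rw [e1] at hVker
    have e4 : 2 / V * (u + C2) = 2 / V * u + 2 / V * C2 := by ring
    rw [e4] at hm2
    have e5 : (CB + 2) * (∫ w in (0:ℝ)..u, aa χ t w) = CB * (∫ w in (0:ℝ)..u, aa χ t w) +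
        2 * (∫ w in (0:ℝ)..u, aa χ t w) := by ring
    rw [e5]
    linarith
  exact hfin

end Pool.Agent.Helper2.MR
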