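import Pool.Agent.Helper2.MR.St

/-! # Turan-Kubilius decomposition of FX -/

set_option autoImplicit false

namespace Pool.Agent.Helper2.MR

open Finset MeasureTheory

namespace Decx

lemma ch_mul (t : ℝ) {m n : ℕ} (hm : m ≠ 0) (hn : n ≠ 0) : ch t (m * n) = ch t m * ch t n := by
  unfold ch
  rw [← Complex.exp_add, Nat.cast_mul,
    Real.log_mul (by exact_mod_cast hm) (by exact_mod_cast hn)]
  congr 1
  push_cast
  ring

lemma gl_mul {q : ℕ} (χ : DirichletCharacter ℂ q) {p m : ℕ} (hp : p.Prime) (hm : m ≠ 0) :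
    gl χ (p * m) = -(χ p * gl χ m) := by
  unfold gl
  rw [ArithmeticFunction.cardFactors_mul hp.ne_zero hm,
    ArithmeticFunction.cardFactors_apply_prime hp]
  push_cast
  rw [map_mul, pow_add, pow_one]
  ring

lemma norm_gl_le {q : ℕ} (χ : DirichletCharacter ℂ q) (n : ℕ) : ‖gl χ n‖ ≤ 1 := by
  unfold gl
  rw [norm_mul, norm_pow, norm_neg, norm_one, one_pow, one_mul]
  exact DirichletCharacter.norm_le_one _ _

/-- the cofactor range -/
noncomputable def Jv (V v X : ℕ) : Finset ℕ :=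
  Ioc ⌊(X : ℝ) * Real.exp (-((v : ℝ) / V))⌋₊ ⌊2 * (X : ℝ) * Real.exp (-((v : ℝ) / V))⌋₊

lemma mem_prm {a b : ℝ} {p : ℕ} :
    p ∈ prm a b ↔ p.Prime ∧ Real.exp a < p ∧ (p : ℝ) ≤ Real.exp b := by
  unfold prm
  rw [mem_filter, mem_Ioc, Nat.floor_lt (Real.exp_pos a).le, Nat.le_floor_iff (Real.exp_pos b).le]
  tauto

lemma mem_Jv {V v X m : ℕ} : m ∈ Jv V v X ↔
    (X : ℝ) * Real.exp (-((v : ℝ) / V)) < m ∧ (m : ℝ) ≤ 2 * (X : ℝ) * Real.exp (-((v : ℝ) / V)) := by
  unfold Jv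
  rw [mem_Ioc, Nat.floor_lt (by positivity), Nat.le_floor_iff (by positivity)]

lemma mem_blk {X n : ℕ} : n ∈ blk (X : ℝ) ↔ X < n ∧ n ≤ 4 * X := by
  unfold blk
  rw [mem_Ioc, Nat.floor_natCast]
  have h : ⌊4 * (X : ℝ)⌋₊ = 4 * X := by
    have : (4 : ℝ) * X = ((4 * X : ℕ) : ℝ) := by push_cast; ring
    rw [this, Nat.floor_natCast]
  rw [h]

lemma exp_half_lt : Real.exp ((1 : ℝ) / 2) < 2 := by
  have h1 : Real.exp ((1 : ℝ) / 2) ^ 2 = Real.exp 1 := by
    rw [← Real.exp_nat_mul]; norm_num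
  have h2 := Real.exp_one_lt_d9
  by_contra h
  push Not at h
  nlinarith

lemma exp_inv_le {V : ℕ} (hV : 2 ≤ V) : Real.exp (1 / (V : ℝ)) ≤ 2 := by
  have hV' : (2 : ℝ) ≤ V := by exact_mod_cast hV
  refine le_trans (Real.exp_le_exp.mpr ?_) exp_half_lt.le
  exact one_div_le_one_div_of_le (by norm_num) hV'

/-- `e^{1/V} ≤ 1 + 2 / V` -/
lemma exp_inv_le' {V : ℕ} (hV : 2 ≤ V) : Real.exp (1 / (V : ℝ)) ≤ 1 + 2 / V := by
  have hV' : (2 : ℝ) ≤ V := by exact_mod_cast hV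
  have h0 : (0 : ℝ) < 1 / V := by positivity
  have h2 := exp_inv_le hV
  -- `1 - x ≤ e^{-x}`, hence `e^x - 1 ≤ x e^x`
  have h3 := Real.add_one_le_exp (-(1 / (V : ℝ)))
  have h4 : Real.exp (-(1 / (V : ℝ))) * Real.exp (1 / (V : ℝ)) = 1 := by
    rw [← Real.exp_add]; simp
  have h5 : (-(1 / (V : ℝ)) + 1) * Real.exp (1 / (V : ℝ)) ≤ 1 :=
    (mul_le_mul_of_nonneg_right h3 (Real.exp_pos _).le).trans h4.le
  have h6 : (1 / (V : ℝ)) * Real.exp (1 / (V : ℝ)) ≤ (1 / (V : ℝ)) * 2 :=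
    mul_le_mul_of_nonneg_left h2 h0.le
  have h7 : (1 / (V : ℝ)) * 2 = 2 / V := by ring
  nlinarith

/-- the pairs `p m`, `p` in the window, `m` in the cofactor range, lie in the block -/
lemma pm_lower {V v X p m : ℕ} (hp : p ∈ Iv V v) (hm : m ∈ Jv V v X) : X < p * m := by
  unfold Iv at hp
  rw [mem_prm] at hp
  rw [mem_Jv] at hm
  obtain ⟨hpp, hp1, hp2⟩ := hp
  have hE : Real.exp ((v : ℝ) / V) * Real.exp (-((v : ℝ) / V)) = 1 := by
    rw [← Real.exp_add]; simp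
  have h0 : (0 : ℝ) < Real.exp ((v : ℝ) / V) := Real.exp_pos _
  have h1 : (X : ℝ) < (p : ℝ) * m := by
    have hX : (X : ℝ) = Real.exp ((v : ℝ) / V) * (X * Real.exp (-((v : ℝ) / V))) := by
      calc (X : ℝ) = X * (Real.exp ((v : ℝ) / V) * Real.exp (-((v : ℝ) / V))) := by rw [hE, mul_one]
        _ = _ := by ring
    rw [hX]
    have hm0 : (0 : ℝ) < m := lt_of_le_of_lt (by positivity) hm.1
    calc Real.exp ((v : ℝ) / V) * (X * Real.exp (-((v : ℝ) / V)))
        ≤ Real.exp ((v : ℝ) / V) * m := mul_le_mul_of_nonneg_left hm.1.le h0.le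
      _ < p * m := mul_lt_mul_of_pos_right hp1 hm0
  exact_mod_cast h1

lemma pm_upper {V v X p m : ℕ} (hp : p ∈ Iv V v) (hm : m ∈ Jv V v X) :
    ((p * m : ℕ) : ℝ) ≤ 2 * X * Real.exp (1 / (V : ℝ)) := by
  unfold Iv at hp
  rw [mem_prm] at hp
  rw [mem_Jv] at hm
  obtain ⟨hpp, hp1, hp2⟩ := hp
  have hE : Real.exp (((v : ℝ) + 1) / V) * Real.exp (-((v : ℝ) / V)) = Real.exp (1 / (V : ℝ)) := by
    rw [← Real.exp_add]; congr 1; ring
  push_cast
  calc (p : ℝ) * m ≤ Real.exp (((v : ℝ) + 1) / V) * (2 * X * Real.exp (-((v : ℝ) / V))) :=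
        mul_le_mul hp2 hm.2 (by positivity) (Real.exp_pos _).le
    _ = 2 * X * (Real.exp (((v : ℝ) + 1) / V) * Real.exp (-((v : ℝ) / V))) := by ring
    _ = _ := by rw [hE]

/-- the weight of one window -/
noncomputable def wv (V v X n : ℕ) : ℕ :=
  ((Iv V v).filter (fun p => p ∣ n ∧ n / p ∈ Jv V v X)).card

lemma wv_le (V v X n : ℕ) : wv V v X n ≤ om (Iv V v) n := by
  unfold wv om
  apply card_le_card
  intro p hp
  rw [mem_filter] at hp ⊢
  exact ⟨hp.1, hp.2.1⟩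

lemma Iv_prime {V v p : ℕ} (hp : p ∈ Iv V v) : p.Prime := by
  unfold Iv at hp
  rw [mem_prm] at hp
  exact hp.1

/-- one window -/
lemma window {q : ℕ} (χ : DirichletCharacter ℂ q) {V v X : ℕ} (hV : 2 ≤ V) (t : ℝ) :
    qv χ V v t * Rv χ V v X t =
      -∑ n ∈ blk (X : ℝ), (wv V v X n : ℂ) * (gl χ n * ch t n / n) := by
  have hR : Rv χ V v X t = ∑ m ∈ Jv V v X, gl χ m * ch t m / m := rfl
  have h1 : ∀ p ∈ Iv V v, ∑ m ∈ Jv V v X, gl χ (p * m) * ch t (p * m) / ((p * m : ℕ) : ℂ)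
      = ∑ n ∈ blk (X : ℝ), if (p ∣ n ∧ n / p ∈ Jv V v X) then gl χ n * ch t n / n else 0 := by
    intro p hp
    rw [← Finset.sum_filter]
    have hp0 : 0 < p := (Iv_prime hp).pos
    refine Finset.sum_nbij' (fun m => p * m) (fun n => n / p) ?_ ?_ ?_ ?_ ?_
    · intro m hm
      rw [mem_filter, mem_blk, Nat.mul_div_cancel_left _ hp0]
      refine ⟨⟨pm_lower hp hm, ?_⟩, dvd_mul_right _ _, hm⟩
      have h2 := pm_upper hp hm
      have h3 := exp_inv_le hV
      have h4 : ((p * m : ℕ) : ℝ) ≤ ((4 * X : ℕ) : ℝ) := by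
        refine h2.trans ?_
        push_cast
        nlinarith [Nat.cast_nonneg (α := ℝ) X]
      exact_mod_cast h4
    · intro n hn
      rw [mem_filter] at hn
      exact hn.2.2
    · intro m hm
      exact Nat.mul_div_cancel_left _ hp0
    · intro n hn
      rw [mem_filter] at hn
      exact Nat.mul_div_cancel' hn.2.1
    · intro m hm
      rfl
  unfold qv
  rw [hR, Finset.sum_mul_sum]
  have h2 : ∀ p ∈ Iv V v, ∑ m ∈ Jv V v X, χ p * ch t p / p * (gl χ m * ch t m / m)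
      = -∑ n ∈ blk (X : ℝ), if (p ∣ n ∧ n / p ∈ Jv V v X) then gl χ n * ch t n / n else 0 := by
    intro p hp
    rw [← h1 p hp, ← Finset.sum_neg_distrib]
    refine Finset.sum_congr rfl fun m hm => ?_
    have hm0 : m ≠ 0 := by
      rw [mem_Jv] at hm
      have : (0 : ℝ) < m := lt_of_le_of_lt (by positivity) hm.1
      intro h
      rw [h] at this
      simp at this
    have hp' := Iv_prime hp
    rw [gl_mul χ hp' hm0, ch_mul t hp'.ne_zero hm0]
    push_cast
    have hpc : (p : ℂ) ≠ 0 := by exact_mod_cast hp'.ne_zero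
    have hmc : (m : ℂ) ≠ 0 := by exact_mod_cast hm0
    field_simp
  rw [Finset.sum_congr rfl h2, Finset.sum_neg_distrib, Finset.sum_comm]
  congr 1
  refine Finset.sum_congr rfl fun n hn => ?_
  rw [← Finset.sum_filter, Finset.sum_const, nsmul_eq_mul]
  rfl

/-- the windows partition the primes -/
lemma prm_union {a b c : ℝ} (hab : a ≤ b) (hbc : b ≤ c) :
    prm a c = prm a b ∪ prm b c ∧ Disjoint (prm a b) (prm b c) := by
  constructor
  · ext p
    rw [mem_union, mem_prm, mem_prm, mem_prm]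
    have h1 := Real.exp_le_exp.mpr hab
    have h2 := Real.exp_le_exp.mpr hbc
    constructor
    · rintro ⟨hp, h3, h4⟩
      rcases le_or_gt (p : ℝ) (Real.exp b) with h | h
      · exact Or.inl ⟨hp, h3, h⟩
      · exact Or.inr ⟨hp, h, h4⟩
    · rintro (⟨hp, h3, h4⟩ | ⟨hp, h3, h4⟩)
      · exact ⟨hp, h3, h4.trans h2⟩
      · exact ⟨hp, lt_of_le_of_lt h1 h3, h4⟩
  · rw [Finset.disjoint_left]
    intro p hp hp'
    rw [mem_prm] at hp hp'
    exact absurd hp'.2.1 (not_lt.mpr hp.2.2)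

lemma om_sum {V v1 v2 : ℕ} (h12 : v1 ≤ v2) (n : ℕ) :
    ∑ v ∈ Ico v1 v2, om (Iv V v) n = om (prm ((v1 : ℝ) / V) ((v2 : ℝ) / V)) n := by
  induction v2, h12 using Nat.le_induction with
  | base =>
    rw [Finset.Ico_self, Finset.sum_empty]
    unfold om
    symm
    rw [Finset.card_eq_zero, Finset.filter_eq_empty_iff]
    intro p hp
    rw [mem_prm] at hp
    exact absurd hp.2.1 (not_lt.mpr hp.2.2)
  | succ v2 h12 ih =>
    rw [Finset.sum_Ico_succ_top h12, ih]
    have h1 : (v1 : ℝ) / V ≤ (v2 : ℝ) / V := by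
      apply div_le_div_of_nonneg_right _ (Nat.cast_nonneg _)
      exact_mod_cast h12
    have h2 : (v2 : ℝ) / V ≤ ((v2 : ℝ) + 1) / V := by
      apply div_le_div_of_nonneg_right _ (Nat.cast_nonneg _)
      linarith
    obtain ⟨h3, h4⟩ := prm_union h1 h2
    push_cast
    rw [h3]
    unfold om Iv
    rw [Finset.filter_union, Finset.card_union_of_disjoint]
    exact Finset.disjoint_filter_filter h4

/-- the total weight -/
noncomputable def w (V v1 v2 X n : ℕ) : ℕ := ∑ v ∈ Ico v1 v2, wv V v X n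

lemma w_le {V v1 v2 X : ℕ} (h12 : v1 ≤ v2) (n : ℕ) :
    w V v1 v2 X n ≤ om (prm ((v1 : ℝ) / V) ((v2 : ℝ) / V)) n := by
  rw [← om_sum h12]
  exact Finset.sum_le_sum fun v _ => wv_le V v X n

/-- in the middle range the weight is the number of prime divisors -/
lemma wv_eq {V v X n : ℕ} (hn : n ≤ 2 * X) (hn' : (X : ℝ) * Real.exp (1 / (V : ℝ)) < n) :
    wv V v X n = om (Iv V v) n := by
  unfold wv om
  congr 1
  apply Finset.filter_congr
  intro p hp
  have hpp := Iv_prime hp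
  unfold Iv at hp
  rw [mem_prm] at hp
  obtain ⟨_, hp1, hp2⟩ := hp
  refine ⟨fun h => h.1, fun h => ⟨h, ?_⟩⟩
  obtain ⟨m, rfl⟩ := h
  rw [Nat.mul_div_cancel_left _ hpp.pos, mem_Jv]
  have hE : Real.exp ((v : ℝ) / V) * Real.exp (-((v : ℝ) / V)) = 1 := by
    rw [← Real.exp_add]; simp
  have hE2 : Real.exp (((v : ℝ) + 1) / V) * Real.exp (-((v : ℝ) / V)) = Real.exp (1 / (V : ℝ)) := by
    rw [← Real.exp_add]; congr 1; ring
  have hE0 := Real.exp_pos (-((v : ℝ) / V))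
  have hm0 : (0 : ℝ) ≤ m := Nat.cast_nonneg _
  push_cast at hn'
  have hn2 : (p : ℝ) * m ≤ 2 * X := by exact_mod_cast hn
  constructor
  · -- lower bound
    have h1 : Real.exp (((v : ℝ) + 1) / V) * (X * Real.exp (-((v : ℝ) / V)))
        < Real.exp (((v : ℝ) + 1) / V) * m := by
      calc Real.exp (((v : ℝ) + 1) / V) * (X * Real.exp (-((v : ℝ) / V)))
          = X * (Real.exp (((v : ℝ) + 1) / V) * Real.exp (-((v : ℝ) / V))) := by ring
        _ = X * Real.exp (1 / (V : ℝ)) := by rw [hE2]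
        _ < (p : ℝ) * m := hn'
        _ ≤ _ := mul_le_mul_of_nonneg_right hp2 hm0
    exact lt_of_mul_lt_mul_left h1 (Real.exp_pos _).le
  · -- upper bound
    have h1 : Real.exp ((v : ℝ) / V) * m ≤ Real.exp ((v : ℝ) / V) *
        (2 * X * Real.exp (-((v : ℝ) / V))) := by
      calc Real.exp ((v : ℝ) / V) * m ≤ p * m := mul_le_mul_of_nonneg_right hp1.le hm0
        _ ≤ 2 * X := hn2
        _ = 2 * X * (Real.exp ((v : ℝ) / V) * Real.exp (-((v : ℝ) / V))) := by rw [hE, mul_one]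
        _ = _ := by ring
    exact le_of_mul_le_mul_left h1 (Real.exp_pos _)

lemma w_eq {V v1 v2 X n : ℕ} (h12 : v1 ≤ v2) (hn : n ≤ 2 * X)
    (hn' : (X : ℝ) * Real.exp (1 / (V : ℝ)) < n) :
    w V v1 v2 X n = om (prm ((v1 : ℝ) / V) ((v2 : ℝ) / V)) n := by
  rw [← om_sum h12]
  exact Finset.sum_congr rfl fun v _ => wv_eq hn hn'

/-- far away the weight vanishes -/
lemma w_zero {V v1 v2 X n : ℕ} (hn : 2 * (X : ℝ) * Real.exp (1 / (V : ℝ)) < n) :
    w V v1 v2 X n = 0 := by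
  unfold w
  apply Finset.sum_eq_zero
  intro v _
  unfold wv
  rw [Finset.card_eq_zero, Finset.filter_eq_empty_iff]
  rintro p hp ⟨⟨m, rfl⟩, h2⟩
  rw [Nat.mul_div_cancel_left _ (Iv_prime hp).pos] at h2
  exact absurd hn (not_lt.mpr (pm_upper hp h2))

lemma mu_nonneg (I : Finset ℕ) : 0 ≤ mu I := by
  unfold mu
  positivity

lemma card_prm_le (a b : ℝ) : ((prm a b).card : ℝ) ≤ Real.exp b := by
  have h1 : (prm a b).card ≤ ⌊Real.exp b⌋₊ := by
    unfold prm
    refine (Finset.card_filter_le _ _).trans ?_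
    rw [Nat.card_Ioc]
    exact Nat.sub_le _ _
  exact (Nat.cast_le.mpr h1).trans (Nat.floor_le (Real.exp_pos b).le)

end Decx

open Decx

theorem dec (h1 : StTK) (h2 : StOm2) : StDec := by
  refine ⟨8, by norm_num, ?_⟩
  intro q χ V v1 v2 X hV h12 hX hexp I
  have hIp : ∀ p ∈ I, p.Prime := fun p hp => (mem_prm.mp hp).1
  set μ : ℝ := mu I with hμ
  have hμ0 : 0 ≤ μ := mu_nonneg I
  refine ⟨fun n => gl χ n * (((if n ≤ 2 * X then μ else 0) - (w V v1 v2 X n : ℝ) : ℝ) : ℂ), ?_, ?_⟩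
  · intro t
    have hS : ∑ v ∈ Ico v1 v2, qv χ V v t * Rv χ V v X t
        = -∑ n ∈ blk (X : ℝ), (w V v1 v2 X n : ℂ) * (gl χ n * ch t n / n) := by
      rw [Finset.sum_congr rfl (fun v _ => window χ hV t), Finset.sum_neg_distrib,
        Finset.sum_comm]
      congr 1
      refine Finset.sum_congr rfl fun n _ => ?_
      unfold w
      push_cast
      rw [Finset.sum_mul]
    have hF : (μ : ℂ) * FX χ X t = ∑ n ∈ blk (X : ℝ),
        ((if n ≤ 2 * X then μ else 0 : ℝ) : ℂ) * (gl χ n * ch t n / n) := by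
      unfold FX
      have hsub : Ioc X (2 * X) = (blk (X : ℝ)).filter (fun n => n ≤ 2 * X) := by
        ext n
        rw [mem_filter, mem_blk, mem_Ioc]
        omega
      rw [hsub, Finset.mul_sum, Finset.sum_filter]
      refine Finset.sum_congr rfl fun n _ => ?_
      split_ifs <;> simp
    rw [hS, hF, neg_neg, ← Finset.sum_add_distrib]
    refine Finset.sum_congr rfl fun n _ => ?_
    push_cast
    ring
  · -- the mean square
    set B1 : ℕ := ⌊(X : ℝ) * Real.exp (1 / (V : ℝ))⌋₊ with hB1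
    set B2 : ℕ := ⌊2 * (X : ℝ) * Real.exp (1 / (V : ℝ))⌋₊ with hB2
    have hXr : (1 : ℝ) ≤ X := by exact_mod_cast hX
    have hVr : (2 : ℝ) ≤ V := by exact_mod_cast hV
    have hE1 : 1 ≤ Real.exp (1 / (V : ℝ)) := Real.one_le_exp (by positivity)
    have hE2 := exp_inv_le hV
    have hE3 := exp_inv_le' hV
    have hXB1 : X ≤ B1 := by
      rw [hB1]; apply Nat.le_floor; nlinarith
    have hXB2 : 2 * X ≤ B2 := by
      rw [hB2]; apply Nat.le_floor; push_cast; nlinarith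
    have hB1le : (B1 : ℝ) ≤ X * Real.exp (1 / (V : ℝ)) := Nat.floor_le (by positivity)
    have hB2le : (B2 : ℝ) ≤ 2 * X * Real.exp (1 / (V : ℝ)) := Nat.floor_le (by positivity)
    -- pointwise bound
    have hpt : ∀ n ∈ blk (X : ℝ),
        ‖gl χ n * (((if n ≤ 2 * X then μ else 0) - (w V v1 v2 X n : ℝ) : ℝ) : ℂ)‖ ^ 2
          ≤ (if n ∈ Icc 1 (2 * X) then ((om I n : ℝ) - μ) ^ 2 else 0)
            + (if n ∈ Ioc X B1 then μ ^ 2 + (om I n : ℝ) ^ 2 else 0)
            + (if n ∈ Ioc (2 * X) B2 then (om I n : ℝ) ^ 2 else 0) := by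
      intro n hn
      rw [mem_blk] at hn
      rw [norm_mul, mul_pow, Complex.norm_real, Real.norm_eq_abs, sq_abs]
      have hg : ‖gl χ n‖ ^ 2 ≤ 1 := by
        have := norm_gl_le χ n
        have h0 := norm_nonneg (gl χ n)
        nlinarith
      have hw0 : (0 : ℝ) ≤ (w V v1 v2 X n : ℝ) := Nat.cast_nonneg _
      have hw1 : (w V v1 v2 X n : ℝ) ≤ (om I n : ℝ) := by exact_mod_cast w_le h12 n
      have key : ∀ y z : ℝ, 0 ≤ y → y ≤ z → ‖gl χ n‖ ^ 2 * y ≤ z := by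
        intro y z hy hyz
        calc ‖gl χ n‖ ^ 2 * y ≤ 1 * y := mul_le_mul_of_nonneg_right hg hy
          _ ≤ z := by linarith
      apply key _ _ (sq_nonneg _)
      have p1 : (0 : ℝ) ≤ (if n ∈ Icc 1 (2 * X) then ((om I n : ℝ) - μ) ^ 2 else 0) := by
        split_ifs <;> positivity
      have p2 : (0 : ℝ) ≤ (if n ∈ Ioc X B1 then μ ^ 2 + (om I n : ℝ) ^ 2 else 0) := by
        split_ifs <;> positivity
      have p3 : (0 : ℝ) ≤ (if n ∈ Ioc (2 * X) B2 then (om I n : ℝ) ^ 2 else 0) := by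
        split_ifs <;> positivity
      rcases le_or_gt n (2 * X) with hc | hc
      · rw [if_pos hc]
        rcases le_or_gt n B1 with hd | hd
        · have hm : n ∈ Ioc X B1 := by rw [mem_Ioc]; exact ⟨hn.1, hd⟩
          rw [if_pos hm]
          nlinarith
        · have hd' : (X : ℝ) * Real.exp (1 / (V : ℝ)) < n := by
            rw [hB1] at hd
            exact (Nat.floor_lt (by positivity)).mp hd
          have he := w_eq (v1 := v1) (v2 := v2) h12 hc hd'
          rw [he]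
          have hm : n ∈ Icc 1 (2 * X) := by rw [mem_Icc]; omega
          rw [if_pos hm]
          have : ((μ : ℝ) - (om I n : ℝ)) ^ 2 = ((om I n : ℝ) - μ) ^ 2 := by ring
          have e2 : (om (prm ((v1 : ℝ) / V) ((v2 : ℝ) / V)) n : ℝ) = (om I n : ℝ) := rfl
          rw [e2, this]
          linarith
      · rw [if_neg (by omega)]
        rcases le_or_gt n B2 with hd | hd
        · have hm : n ∈ Ioc (2 * X) B2 := by rw [mem_Ioc]; exact ⟨hc, hd⟩
          rw [if_pos hm]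
          nlinarith
        · have hd' : 2 * (X : ℝ) * Real.exp (1 / (V : ℝ)) < n := by
            rw [hB2] at hd
            exact (Nat.floor_lt (by positivity)).mp hd
          rw [w_zero hd']
          simp only [Nat.cast_zero, sub_zero]
          have : (0 : ℝ) ^ 2 = 0 := by norm_num
          rw [this]
          linarith
    refine (Finset.sum_le_sum hpt).trans ?_
    rw [Finset.sum_add_distrib, Finset.sum_add_distrib]
    have s1 : ∑ n ∈ blk (X : ℝ), (if n ∈ Icc 1 (2 * X) then ((om I n : ℝ) - μ) ^ 2 else 0)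
        ≤ μ * (2 * X + 2 * I.card) := by
      have := h1 I hIp (2 * X)
      push_cast at this
      refine le_trans ?_ this
      rw [← Finset.sum_filter]
      apply Finset.sum_le_sum_of_subset_of_nonneg
      · intro n hn
        rw [mem_filter] at hn
        exact hn.2
      · intros; positivity
    have s2 : ∑ n ∈ blk (X : ℝ), (if n ∈ Ioc X B1 then μ ^ 2 + (om I n : ℝ) ^ 2 else 0)
        ≤ ((B1 : ℝ) - X) * μ ^ 2 + (((B1 : ℝ) - X) * (μ ^ 2 + μ) + (I.card : ℝ) ^ 2) := by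
      have h3 := h2 I hIp X B1 hXB1
      rw [← Finset.sum_filter]
      have h4 : ∑ n ∈ (blk (X : ℝ)).filter (fun n => n ∈ Ioc X B1), (μ ^ 2 + (om I n : ℝ) ^ 2)
          ≤ ∑ n ∈ Ioc X B1, (μ ^ 2 + (om I n : ℝ) ^ 2) := by
        apply Finset.sum_le_sum_of_subset_of_nonneg
        · intro n hn
          rw [mem_filter] at hn
          exact hn.2
        · intros; positivity
      refine h4.trans ?_
      rw [Finset.sum_add_distrib, Finset.sum_const, Nat.card_Ioc, nsmul_eq_mul,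
        Nat.cast_sub hXB1]
      linarith
    have s3 : ∑ n ∈ blk (X : ℝ), (if n ∈ Ioc (2 * X) B2 then (om I n : ℝ) ^ 2 else 0)
        ≤ ((B2 : ℝ) - 2 * X) * (μ ^ 2 + μ) + (I.card : ℝ) ^ 2 := by
      have h3 := h2 I hIp (2 * X) B2 hXB2
      push_cast at h3
      refine le_trans ?_ h3
      rw [← Finset.sum_filter]
      apply Finset.sum_le_sum_of_subset_of_nonneg
      · intro n hn
        rw [mem_filter] at hn
        exact hn.2
      · intros; positivity
    -- sizes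
    have hcard : (I.card : ℝ) ≤ (X : ℝ) ^ (1 / 4 : ℝ) := (card_prm_le _ _).trans hexp
    have hc0 : (0 : ℝ) ≤ I.card := Nat.cast_nonneg _
    have hcard2 : (I.card : ℝ) ^ 2 ≤ X := by
      have h5 : (I.card : ℝ) ^ 2 ≤ ((X : ℝ) ^ (1 / 4 : ℝ)) ^ 2 :=
        pow_le_pow_left₀ hc0 hcard 2
      refine h5.trans ?_
      rw [← Real.rpow_natCast, ← Real.rpow_mul (by positivity)]
      calc (X : ℝ) ^ ((1 / 4 : ℝ) * ((2 : ℕ) : ℝ)) ≤ (X : ℝ) ^ (1 : ℝ) :=
            Real.rpow_le_rpow_of_exponent_le hXr (by norm_num)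
        _ = X := Real.rpow_one _
    have hcard1 : (I.card : ℝ) ≤ X := by
      refine hcard.trans ?_
      calc (X : ℝ) ^ (1 / 4 : ℝ) ≤ (X : ℝ) ^ (1 : ℝ) :=
            Real.rpow_le_rpow_of_exponent_le hXr (by norm_num)
        _ = X := Real.rpow_one _
    have hb1 : (B1 : ℝ) - X ≤ X * (2 / V) := by nlinarith
    have hb2 : (B2 : ℝ) - 2 * X ≤ X * (4 / V) := by
      have h6 : (4 : ℝ) / V = 2 * (2 / V) := by ring
      rw [h6]
      nlinarith
    have hV4 : (4 : ℝ) / V ≤ 2 := by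
      rw [div_le_iff₀ (by linarith)]; linarith
    have hV2 : (2 : ℝ) / V ≤ 1 := by
      rw [div_le_iff₀ (by linarith)]; linarith
    have t1 : μ * (2 * X + 2 * I.card) ≤ 4 * X * μ := by nlinarith
    have t2 : ((B1 : ℝ) - X) * μ ^ 2 ≤ X * (2 / V) * μ ^ 2 :=
      mul_le_mul_of_nonneg_right hb1 (sq_nonneg _)
    have t3 : ((B1 : ℝ) - X) * (μ ^ 2 + μ) ≤ X * (2 / V) * (μ ^ 2 + μ) :=
      mul_le_mul_of_nonneg_right hb1 (by positivity)
    have t4 : ((B2 : ℝ) - 2 * X) * (μ ^ 2 + μ) ≤ X * (4 / V) * (μ ^ 2 + μ) :=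
      mul_le_mul_of_nonneg_right hb2 (by positivity)
    have t5 : X * (2 / V) * μ ≤ X * 1 * μ := by gcongr
    have t6 : X * (4 / V) * μ ≤ X * 2 * μ := by gcongr
    have t7 : (X : ℝ) * (2 / V) * μ ^ 2 = 2 * (X * (μ ^ 2 / V)) := by ring
    have t8 : (X : ℝ) * (4 / V) * μ ^ 2 = 4 * (X * (μ ^ 2 / V)) := by ring
    have t9 : 8 * (X : ℝ) * (1 + μ + μ ^ 2 / V) = 8 * X + 8 * X * μ + 8 * (X * (μ ^ 2 / V)) := by ring
    rw [t9]
    have t10 : 0 ≤ (X : ℝ) * μ := by positivity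
    nlinarith

end Pool.Agent.Helper2.MR
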