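import Mathlib

/-!
# Matomaki-Radziwill for `λ χ`, qualitative form: definitions and interface statements

All statements are `Prop`s; each is proved in a module of its own.
-/

set_option autoImplicit false

namespace Pool.Agent.Helper2.MR

open Finset MeasureTheory

/-- the character `n ↦ n ^ (-i t)` -/
noncomputable def ch (t : ℝ) (n : ℕ) : ℂ :=
  Complex.exp (((-(t * Real.log n) : ℝ) : ℂ) * Complex.I)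

/-- `λ(n) χ(n)` -/
noncomputable def gl {q : ℕ} (χ : DirichletCharacter ℂ q) (n : ℕ) : ℂ :=
  (-1 : ℂ) ^ (ArithmeticFunction.cardFactors n) * χ n

/-- `∑_{X < n ≤ 2X} λ(n) χ(n) n^{-1-it}` -/
noncomputable def FX {q : ℕ} (χ : DirichletCharacter ℂ q) (X : ℕ) (t : ℝ) : ℂ :=
  ∑ n ∈ Ioc X (2 * X), gl χ n * ch t n / n

/-- `1`-separated finite sets -/
def Sep (T : Finset ℝ) : Prop := ∀ t ∈ T, ∀ t' ∈ T, t ≠ t' → 1 ≤ |t - t'|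

/-- integers in `(M, 4M]` -/
noncomputable def blk (M : ℝ) : Finset ℕ := Ioc ⌊M⌋₊ ⌊4 * M⌋₊

/-! ## Block VC (helper58): exponential sums, sieve majorant, duality -/

/-- sharp sums of `n^{-it}` in residue classes -/
def StSS : Prop :=
  ∀ (k q : ℕ), 1 ≤ q → ∃ C ρ : ℝ, 0 < C ∧ 0 < ρ ∧ ρ < 1 ∧
    ∀ (r : ℕ) (x t : ℝ), 1 ≤ x → 1 ≤ |t| → |t| ≤ x ^ k →
      ‖∑ n ∈ (Icc 1 ⌊x⌋₊).filter (fun n => n % q = r % q), ch t n‖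
        ≤ C * (x ^ (1 - ρ) + x / |t|)

/-- Halasz-Montgomery with a logarithmic loss, second derivative test -/
def StL1p : Prop :=
  ∃ C : ℝ, 0 < C ∧ ∀ (T M : ℝ) (𝒯 : Finset ℝ) (a : ℕ → ℂ), 1 ≤ T → 1 ≤ M →
    (∀ t ∈ 𝒯, |t| ≤ T) → Sep 𝒯 →
      ∑ t ∈ 𝒯, ‖∑ n ∈ blk M, a n * ch t n‖ ^ 2
        ≤ C * (M * (1 + Real.log M) + 𝒯.card * T ^ (1 / 2 : ℝ)) * ∑ n ∈ blk M, ‖a n‖ ^ 2

/-- lossless large values inequality for very sparse sets -/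
def StL1 : Prop :=
  ∀ k : ℕ, ∃ C ρ : ℝ, 0 < C ∧ 0 < ρ ∧ ∀ (M : ℝ) (𝒯 : Finset ℝ) (a : ℕ → ℂ), 1 ≤ M →
    (∀ t ∈ 𝒯, |t| ≤ M ^ k) → Sep 𝒯 →
      ∑ t ∈ 𝒯, ‖∑ n ∈ blk M, a n * ch t n‖ ^ 2
        ≤ C * (M + 𝒯.card * M ^ (1 - ρ)) * ∑ n ∈ blk M, ‖a n‖ ^ 2

/-- lossless large values inequality for polynomials over primes -/
def StL2 : Prop :=
  ∀ k : ℕ, ∃ C ρ : ℝ, 0 < C ∧ 0 < ρ ∧ ∀ (M : ℝ) (𝒯 : Finset ℝ) (a : ℕ → ℂ), 2 ≤ M →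
    (∀ t ∈ 𝒯, |t| ≤ M ^ k) → Sep 𝒯 →
      ∑ t ∈ 𝒯, ‖∑ p ∈ (blk M).filter Nat.Prime, a p * ch t p‖ ^ 2
        ≤ C * (M / Real.log M + 𝒯.card * M ^ (1 - ρ)) * ∑ p ∈ (blk M).filter Nat.Prime, ‖a p‖ ^ 2

/-- primes in windows of constant ratio (Brun-Titchmarsh) -/
def StBT : Prop :=
  ∃ C : ℝ, 0 < C ∧ ∀ V : ℝ, 1 ≤ V → ∃ z0 : ℝ, ∀ z : ℝ, z0 ≤ z →
    ∑ p ∈ (Ioc ⌊Real.exp z⌋₊ ⌊Real.exp (z + 1 / V)⌋₊).filter Nat.Prime, Real.log p / p ≤ C / V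

/-! ## Mean values -/

/-- mean value theorem for Dirichlet polynomials -/
def StMV : Prop :=
  ∃ C : ℝ, 0 < C ∧ ∀ (T : ℝ) (N : ℕ) (a : ℕ → ℂ), 1 ≤ T → 1 ≤ N →
    ∫ t in (-T)..T, ‖∑ n ∈ Icc 1 N, a n * ch t n‖ ^ 2
      ≤ C * (T + N) * ∑ n ∈ Icc 1 N, ‖a n‖ ^ 2

/-- discrete mean value theorem with a logarithmic loss -/
def StDMV : Prop :=
  ∃ C : ℝ, 0 < C ∧ ∀ (T : ℝ) (N : ℕ) (𝒯 : Finset ℝ) (a : ℕ → ℂ), 1 ≤ T → 1 ≤ N →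
    (∀ t ∈ 𝒯, |t| ≤ T) → Sep 𝒯 →
      ∑ t ∈ 𝒯, ‖∑ n ∈ Icc 1 N, a n * ch t n‖ ^ 2
        ≤ C * (T + N) * (1 + Real.log N) * ∑ n ∈ Icc 1 N, ‖a n‖ ^ 2

/-! ## Elementary number theory -/

/-- `∑_{p ∈ I} 1/p` -/
noncomputable def mu (I : Finset ℕ) : ℝ := ∑ p ∈ I, (1 : ℝ) / p

/-- number of elements of `I` dividing `n` -/
def om (I : Finset ℕ) (n : ℕ) : ℕ := (I.filter (fun p => p ∣ n)).card

/-- Turan-Kubilius for an arbitrary finite set of primes -/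
def StTK : Prop :=
  ∀ (I : Finset ℕ), (∀ p ∈ I, p.Prime) → ∀ N : ℕ,
    ∑ n ∈ Icc 1 N, ((om I n : ℝ) - mu I) ^ 2 ≤ mu I * (N + 2 * I.card)

/-- second moment of `om` in short intervals -/
def StOm2 : Prop :=
  ∀ (I : Finset ℕ), (∀ p ∈ I, p.Prime) → ∀ A B : ℕ, A ≤ B →
    ∑ n ∈ Ioc A B, (om I n : ℝ) ^ 2 ≤ ((B : ℝ) - A) * (mu I ^ 2 + mu I) + (I.card : ℝ) ^ 2

/-- primes with `a < log p ≤ b` -/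
noncomputable def prm (a b : ℝ) : Finset ℕ := (Ioc ⌊Real.exp a⌋₊ ⌊Real.exp b⌋₊).filter Nat.Prime

/-- lower bound of Mertens type -/
def StMert : Prop :=
  ∃ c C : ℝ, 0 < c ∧ ∀ a b : ℝ, 1 ≤ a → a ≤ b → c * Real.log (b / a) - C ≤ mu (prm a b)

/-! ## Pointwise decay (P) -/

/-- partial sums of `g(n) n^{-it}` -/
noncomputable def MM {q : ℕ} (χ : DirichletCharacter ℂ q) (t x : ℝ) : ℂ :=
  ∑ n ∈ Icc 1 ⌊x⌋₊, gl χ n * ch t n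

/-- Montgomery's averaging inequality -/
def StAvg : Prop :=
  ∃ C : ℝ, 0 < C ∧ ∀ (q : ℕ) [NeZero q] (χ : DirichletCharacter ℂ q) (V : ℝ), 1 ≤ V →
    ∃ K : ℝ, ∀ (t u : ℝ), 1 ≤ u →
      u * (Real.exp (-u) * ‖MM χ t (Real.exp u)‖) ≤
        C * (∫ v in (0:ℝ)..u, Real.exp (-v) * ‖MM χ t (Real.exp v)‖) + C * u / V + K

/-- the Dirichlet series `G(s) = ∑ λ(n)χ(n)n^{-s}` -/
noncomputable def GG {q : ℕ} (χ : DirichletCharacter ℂ q) (s : ℂ) : ℂ := LSeries (gl χ) s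

/-- Plancherel inequality for Dirichlet series -/
def StPl1 : Prop :=
  ∀ (c : ℕ → ℂ) (A σ : ℝ), 1 < σ → (∀ n : ℕ, ‖c n‖ ≤ A * (1 + Real.log n)) →
    IntegrableOn (fun v : ℝ => ‖∑ n ∈ Icc 1 ⌊Real.exp v⌋₊, c n‖ ^ 2 * Real.exp (-(2 * σ * v)))
      (Set.Ioi 0) ∧
    ∫ v in Set.Ioi (0:ℝ), ‖∑ n ∈ Icc 1 ⌊Real.exp v⌋₊, c n‖ ^ 2 * Real.exp (-(2 * σ * v))
      ≤ (1 / (2 * Real.pi)) * ∫ y : ℝ, ‖LSeries c (σ + y * Complex.I)‖ ^ 2 / (σ ^ 2 + y ^ 2)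

/-- Plancherel inequality in the other direction -/
def StPl2 : Prop :=
  ∀ (c : ℕ → ℂ) (A B σ : ℝ), 1 < σ → (∀ n : ℕ, ‖c n‖ ≤ B * (1 + Real.log n)) →
    (∀ N : ℕ, ∑ n ∈ Icc 1 N, ‖c n‖ ≤ A * N) →
    ∫ y : ℝ, ‖LSeries c (σ + y * Complex.I)‖ ^ 2 / (σ ^ 2 + y ^ 2) ≤ Real.pi * A ^ 2 / (σ - 1)

/-- `G'` as a product: `∑ λχ(n) log n n^{-s} = G(s) ∑ Λ(n) λχ(n) n^{-s}` -/
def StGlog : Prop :=
  ∀ (q : ℕ) [NeZero q] (χ : DirichletCharacter ℂ q) (s : ℂ), 1 < s.re →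
    LSeries (fun n => gl χ n * Real.log n) s =
      GG χ s * LSeries (fun n => gl χ n * ArithmeticFunction.vonMangoldt n) s

/-- Halasz-Montgomery: an upper bound for partial sums in terms of `G` on `Re s = 1 + 1/u` -/
def StHal : Prop :=
  ∀ (q : ℕ) [NeZero q] (χ : DirichletCharacter ℂ q) (ε : ℝ), 0 < ε → ∃ δ T u0 : ℝ, 0 < δ ∧ 1 ≤ T ∧
    ∀ (t u : ℝ), u0 ≤ u → (∀ y : ℝ, |y| ≤ T → ‖GG χ (1 + 1 / u + (t + y) * Complex.I)‖ ≤ δ * u) →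
      ‖MM χ t (Real.exp u)‖ ≤ ε * Real.exp u

/-- upper bound for `L(1 + 1/u + iy, ψ)` for `y` large -/
def StLub : Prop :=
  ∀ (q : ℕ) [NeZero q] (ψ : DirichletCharacter ℂ q) (B ε : ℝ), 0 < B → 0 < ε → ∃ T0 u0 : ℝ,
    ∀ (u y : ℝ), u0 ≤ u → T0 ≤ |y| → |y| ≤ Real.exp (B * u) →
      ‖DirichletCharacter.LFunction ψ (1 + 1 / u + y * Complex.I)‖ ≤ ε * u

/-- `|G(1+x+iy)| |L(1+x+iy)| ≤ 2` -/
def StGL : Prop :=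
  ∀ (q : ℕ) [NeZero q] (χ : DirichletCharacter ℂ q) (x y : ℝ), 0 < x →
    ‖GG χ (1 + x + y * Complex.I)‖ * ‖DirichletCharacter.LFunction χ (1 + x + y * Complex.I)‖ ≤ 2

/-- bound for `G` on `Re s = 1 + 1/u` -/
def StGub : Prop :=
  ∀ (q : ℕ) [NeZero q] (χ : DirichletCharacter ℂ q) (B δ : ℝ), 0 < B → 0 < δ → ∃ u0 : ℝ,
    ∀ (u y : ℝ), u0 ≤ u → |y| ≤ Real.exp (B * u) →
      ‖GG χ (1 + 1 / u + y * Complex.I)‖ ≤ δ * u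

/-- pointwise decay -/
def StP : Prop :=
  ∀ (q : ℕ) [NeZero q] (χ : DirichletCharacter ℂ q) (B ε : ℝ), 0 < B → 0 < ε → ∃ x0 : ℝ,
    ∀ (x t : ℝ), x0 ≤ x → |t| ≤ x ^ B → ‖MM χ t x‖ ≤ ε * x

/-! ## The last two levels -/

/-- window of primes `v < V log p ≤ v + 1` -/
noncomputable def Iv (V v : ℕ) : Finset ℕ := prm ((v : ℝ) / V) (((v : ℝ) + 1) / V)

/-- the prime polynomial of a window -/
noncomputable def qv {q : ℕ} (χ : DirichletCharacter ℂ q) (V v : ℕ) (t : ℝ) : ℂ :=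
  ∑ p ∈ Iv V v, χ p * ch t p / p

/-- the cofactor polynomial -/
noncomputable def Rv {q : ℕ} (χ : DirichletCharacter ℂ q) (V v X : ℕ) (t : ℝ) : ℂ :=
  ∑ m ∈ Ioc ⌊(X : ℝ) * Real.exp (-((v : ℝ) / V))⌋₊ ⌊2 * (X : ℝ) * Real.exp (-((v : ℝ) / V))⌋₊,
    gl χ m * ch t m / m

/-- the Turan-Kubilius decomposition of `FX` along the windows `v1 ≤ v < v2` -/
def StDec : Prop :=
  ∃ C : ℝ, 0 < C ∧ ∀ (q : ℕ) (χ : DirichletCharacter ℂ q) (V v1 v2 X : ℕ), 2 ≤ V → v1 ≤ v2 → 1 ≤ X →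
    Real.exp ((v2 : ℝ) / V) ≤ (X : ℝ) ^ (1 / 4 : ℝ) →
    let I := prm ((v1 : ℝ) / V) ((v2 : ℝ) / V)
    ∃ e : ℕ → ℂ,
      (∀ t : ℝ, (mu I : ℂ) * FX χ X t =
        -(∑ v ∈ Ico v1 v2, qv χ V v t * Rv χ V v X t) + ∑ n ∈ blk X, e n * ch t n / n) ∧
      ∑ n ∈ blk X, ‖e n‖ ^ 2 ≤ C * X * (1 + mu I + mu I ^ 2 / V)

/-- number of points where a prime polynomial is not tiny -/
def StCnt : Prop :=
  ∀ (c : ℝ), 0 < c → ∃ K X0 : ℝ, ∀ (q : ℕ) (χ : DirichletCharacter ℂ q) (V v : ℕ) (X : ℝ)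
    (𝒯 : Finset ℝ), 1 ≤ V → X0 ≤ X → c * Real.log X ≤ (v : ℝ) / V → (v : ℝ) / V ≤ Real.log X →
    (∀ t ∈ 𝒯, |t| ≤ X) → Sep 𝒯 → (∀ t ∈ 𝒯, (Real.log X) ^ (-2 : ℝ) < ‖qv χ V v t‖) →
      (𝒯.card : ℝ) ≤ (Real.log X) ^ K

/-- points of the set `U` cover few unit cells -/
def Cells (U : Set ℝ) (R : ℝ) : Prop :=
  ∃ S : Finset ℤ, (S.card : ℝ) ≤ R ∧ ∀ t ∈ U, ⌊t⌋ ∈ S

/-- integrals over sets versus sums over `1`-separated points -/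
def StInt : Prop :=
  ∀ (U : Set ℝ) (R : ℝ) (f : ℝ → ℝ), MeasurableSet U → U ⊆ Set.Icc (-R) R → Continuous f →
    (∀ t, 0 ≤ f t) → ∃ 𝒯 : Finset ℝ, (∀ t ∈ 𝒯, t ∈ U) ∧ Sep 𝒯 ∧ ∫ t in U, f t ≤ 4 * ∑ t ∈ 𝒯, f t

/-- level `J+1`: outside a set with polylogarithmically many cells the integral is small -/
def StSplit : Prop :=
  ∀ (q : ℕ) [NeZero q] (χ : DirichletCharacter ℂ q) (ε η : ℝ), 0 < ε → 0 < η → ∃ K : ℝ, ∃ X0 : ℕ,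
    ∀ (X : ℕ) (U : Set ℝ), X0 ≤ X → MeasurableSet U → U ⊆ Set.Icc (-(X : ℝ)) X →
      Cells U ((X : ℝ) ^ (1 / 2 - η)) →
      ∃ U' : Set ℝ, U' ⊆ U ∧ MeasurableSet U' ∧
        (∀ 𝒯 : Finset ℝ, (∀ t ∈ 𝒯, t ∈ U') → Sep 𝒯 → (𝒯.card : ℝ) ≤ (Real.log X) ^ K) ∧
        ∫ t in U \ U', ‖FX χ X t‖ ^ 2 ≤ ε

/-- polylogarithmically many points do not matter -/
def StTiny : Prop :=
  ∀ (q : ℕ) [NeZero q] (χ : DirichletCharacter ℂ q) (ε K : ℝ), 0 < ε → ∃ X0 : ℕ,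
    ∀ (X : ℕ) (𝒯 : Finset ℝ), X0 ≤ X → (∀ t ∈ 𝒯, |t| ≤ X) → Sep 𝒯 →
      (𝒯.card : ℝ) ≤ (Real.log X) ^ K → ∑ t ∈ 𝒯, ‖FX χ X t‖ ^ 2 ≤ ε

/-- the last two levels: sparse sets do not matter -/
def StFIN : Prop :=
  ∀ (q : ℕ) [NeZero q] (χ : DirichletCharacter ℂ q) (ε η : ℝ), 0 < ε → 0 < η → ∃ X0 : ℕ,
    ∀ (X : ℕ) (U : Set ℝ), X0 ≤ X → MeasurableSet U → U ⊆ Set.Icc (-(X : ℝ)) X →
      Cells U ((X : ℝ) ^ (1 / 2 - η)) → ∫ t in U, ‖FX χ X t‖ ^ 2 ≤ ε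

end Pool.Agent.Helper2.MR
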